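import Pool.Agent.Work.MP_cf6fa9_co.Primes2

set_option autoImplicit false

namespace Pool.Agent.Work.MP_cf6fa9_co

open Finset

/-- `k` primes `1 mod 4` of polynomial size. -/
lemma exists_primes (k : ℕ) (hk : 13 ≤ k) : ∃ S : Finset ℕ, S.card = k ∧
    ∀ p ∈ S, p.Prime ∧ p % 4 = 1 ∧ p ≤ 4 * ((8 * k) ^ 4) ^ 2 + 1 := by
  have h := card_PS (8 * k) (by omega)
  have h1 : k ≤ (PS (4 * ((8 * k) ^ 4) ^ 2 + 1)).card := by
    have : ((8 * k : ℕ) : ℝ) / 8 = k := by push_cast; ring
    rw [this] at h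
    exact_mod_cast h
  obtain ⟨S, hS, hc⟩ := Finset.exists_subset_card_eq h1
  refine ⟨S, hc, ?_⟩
  intro p hp
  have := hS hp
  simp only [PS, mem_filter, mem_range] at this
  exact ⟨this.2.1, this.2.2, by omega⟩

/-- One prime at a time: doubling of the number of representations. -/
lemma double_reps (p N : ℕ) (hp : p.Prime) (hp4 : p % 4 = 1) (hN : ¬ p ∣ N)
    (V : Finset (ℤ × ℤ)) (hV : ∀ v ∈ V, v.1 ^ 2 + v.2 ^ 2 = N) :
    ∃ W : Finset (ℤ × ℤ), W.card = 2 * V.card ∧ ∀ v ∈ W, v.1 ^ 2 + v.2 ^ 2 = (p * N : ℕ) := by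
  classical
  have : Fact p.Prime := ⟨hp⟩
  obtain ⟨x0, y0, hxy0⟩ := Nat.Prime.sq_add_sq (p := p) (by omega)
  set x : ℤ := (x0 : ℤ) with hx
  set y : ℤ := (y0 : ℤ) with hy
  have hxy : x ^ 2 + y ^ 2 = p := by rw [hx, hy]; exact_mod_cast hxy0
  have hp0 : (0 : ℤ) < p := by exact_mod_cast hp.pos
  let f : ℤ × ℤ → ℤ × ℤ := fun v => (v.1 * x - v.2 * y, v.1 * y + v.2 * x)
  let g : ℤ × ℤ → ℤ × ℤ := fun v => (v.1 * x + v.2 * y, v.2 * x - v.1 * y)
  have hf : Function.Injective f := by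
    rintro ⟨a, b⟩ ⟨c, d⟩ h
    simp only [f, Prod.mk.injEq] at h
    obtain ⟨h1, h2⟩ := h
    have e1 : (a - c) * p = 0 := by rw [← hxy]; linear_combination x * h1 + y * h2
    have e2 : (b - d) * p = 0 := by rw [← hxy]; linear_combination (-y) * h1 + x * h2
    have e3 := (mul_eq_zero.1 e1).resolve_right hp0.ne'
    have e4 := (mul_eq_zero.1 e2).resolve_right hp0.ne'
    rw [Prod.mk.injEq]
    exact ⟨by linarith, by linarith⟩
  have hg : Function.Injective g := by
    rintro ⟨a, b⟩ ⟨c, d⟩ h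
    simp only [g, Prod.mk.injEq] at h
    obtain ⟨h1, h2⟩ := h
    have e1 : (a - c) * p = 0 := by rw [← hxy]; linear_combination x * h1 - y * h2
    have e2 : (b - d) * p = 0 := by rw [← hxy]; linear_combination y * h1 + x * h2
    have e3 := (mul_eq_zero.1 e1).resolve_right hp0.ne'
    have e4 := (mul_eq_zero.1 e2).resolve_right hp0.ne'
    rw [Prod.mk.injEq]
    exact ⟨by linarith, by linarith⟩
  have hdisj : Disjoint (V.image f) (V.image g) := by
    rw [Finset.disjoint_left]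
    rintro w hw1 hw2
    rw [mem_image] at hw1 hw2
    obtain ⟨⟨a, b⟩, hab, rfl⟩ := hw1
    obtain ⟨⟨c, d⟩, hcd, hh⟩ := hw2
    simp only [f, g, Prod.mk.injEq] at hh
    obtain ⟨h1, h2⟩ := hh
    -- c x + d y = a x - b y ; d x - c y = a y + b x
    have i1 : (a - c) * x = (b + d) * y := by linear_combination -h1
    have i2 : (a + c) * y = (d - b) * x := by linear_combination -h2
    have hcop : IsCoprime x y := by
      rw [Int.isCoprime_iff_gcd_eq_one]
      by_contra hne
      obtain ⟨q, hq, hq1⟩ := Nat.exists_prime_and_dvd hne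
      have hqx : (q : ℤ) ∣ x := (Int.natCast_dvd_natCast.2 hq1).trans (Int.gcd_dvd_left ..)
      have hqy : (q : ℤ) ∣ y := (Int.natCast_dvd_natCast.2 hq1).trans (Int.gcd_dvd_right ..)
      have hq2 : ((q : ℤ)) ^ 2 ∣ p := by
        rw [← hxy]
        exact dvd_add (pow_dvd_pow_of_dvd hqx 2) (pow_dvd_pow_of_dvd hqy 2)
      have hq3 : q ^ 2 ∣ p := by exact_mod_cast hq2
      have hq4 : q ∣ p := (dvd_pow_self q two_ne_zero).trans hq3
      have hq5 : q = p := (Nat.prime_dvd_prime_iff_eq hq hp).1 hq4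
      rw [hq5] at hq3
      have := Nat.le_of_dvd hp.pos hq3
      have := hp.two_le
      nlinarith
    obtain ⟨k, hk⟩ : y ∣ a - c := by
      have : y ∣ (a - c) * x := ⟨b + d, by rw [i1]; ring⟩
      exact hcop.symm.dvd_of_dvd_mul_right this
    obtain ⟨l, hl⟩ : x ∣ a + c := by
      have : x ∣ (a + c) * y := ⟨d - b, by rw [i2]; ring⟩
      exact hcop.dvd_of_dvd_mul_right this
    have hy0' : y ≠ 0 := by
      intro h0
      rw [h0] at hxy
      have h5 : x ^ 2 = p := by linarith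
      have h6 : x0 ^ 2 = p := by
        have : ((x0 : ℤ)) ^ 2 = p := h5
        exact_mod_cast this
      exact (Nat.Prime.not_prime_pow (le_refl 2)) (h6 ▸ hp)
    have hx0' : x ≠ 0 := by
      intro h0
      rw [h0] at hxy
      have h5 : y ^ 2 = p := by linarith
      have h6 : y0 ^ 2 = p := by
        have : ((y0 : ℤ)) ^ 2 = p := h5
        exact_mod_cast this
      exact (Nat.Prime.not_prime_pow (le_refl 2)) (h6 ▸ hp)
    have hk2 : b + d = x * k := by
      have : (b + d) * y = (x * k) * y := by rw [← i1, hk]; ring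
      exact mul_right_cancel₀ hy0' this
    have hl2 : d - b = y * l := by
      have : (d - b) * x = (y * l) * x := by rw [← i2, hl]; ring
      exact mul_right_cancel₀ hx0' this
    have hN' := hV _ hab
    simp only at hN'
    have h2a : 2 * a = y * k + x * l := by linarith
    have h2b : 2 * b = x * k - y * l := by linarith
    have h4N : (p : ℤ) * (k ^ 2 + l ^ 2) = 4 * N := by
      rw [← hN', ← hxy]
      have e : 4 * (a ^ 2 + b ^ 2) = (2 * a) ^ 2 + (2 * b) ^ 2 := by ring
      rw [e, h2a, h2b]; ring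
    have hdvd : (p : ℤ) ∣ 4 * N := ⟨_, h4N.symm⟩
    have hdvd' : p ∣ 4 * N := by exact_mod_cast hdvd
    rcases (Nat.Prime.dvd_mul hp).1 hdvd' with h | h
    · have h7 : p ∣ 2 ^ 2 := by simpa using h
      have h8 := hp.dvd_of_dvd_pow h7
      have := Nat.le_of_dvd (by norm_num) h8
      have := hp.two_le
      omega
    · exact hN h
  refine ⟨V.image f ∪ V.image g, ?_, ?_⟩
  · rw [card_union_of_disjoint hdisj, card_image_of_injective _ hf, card_image_of_injective _ hg]
    ring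
  · intro w hw
    rw [mem_union, mem_image, mem_image] at hw
    push_cast
    rcases hw with ⟨v, hv, rfl⟩ | ⟨v, hv, rfl⟩
    · simp only [f]
      rw [← hxy, ← hV v hv]; ring
    · simp only [g]
      rw [← hxy, ← hV v hv]; ring

/-- Products of primes `1 mod 4` have many representations. -/
lemma many_reps (S : Finset ℕ) (hS : ∀ p ∈ S, p.Prime ∧ p % 4 = 1) :
    ∃ W : Finset (ℤ × ℤ), 2 ^ S.card ≤ W.card ∧ ∀ v ∈ W, v.1 ^ 2 + v.2 ^ 2 = (∏ p ∈ S, p : ℕ) := by
  classical
  induction S using Finset.induction_on with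
  | empty => exact ⟨{(1, 0)}, by simp, by simp⟩
  | insert p S hp ih =>
    obtain ⟨W, hW1, hW2⟩ := ih (fun q hq => hS q (mem_insert_of_mem hq))
    have hpp := hS p (mem_insert_self p S)
    have hnd : ¬ p ∣ ∏ q ∈ S, q := by
      intro h
      rw [Prime.dvd_finsetProd_iff hpp.1.prime] at h
      obtain ⟨q, hq, hpq⟩ := h
      have := (Nat.prime_dvd_prime_iff_eq hpp.1 (hS q (mem_insert_of_mem hq)).1).1 hpq
      rw [this] at hp
      exact hp hq
    obtain ⟨W', h1, h2⟩ := double_reps p _ hpp.1 hpp.2 hnd W hW2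
    refine ⟨W', ?_, ?_⟩
    · rw [card_insert_of_notMem hp, h1, pow_succ]
      omega
    · rw [prod_insert hp]
      exact h2

end Pool.Agent.Work.MP_cf6fa9_co
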