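import Mathlib

set_option autoImplicit false

namespace Pool.Agent.Work.MP_cf6fa9_co

open Finset

/-- Multiplication by `ρ ≠ 1` moves many elements of a finite set of integers out of it. -/
lemma orbit_bound (B : ℕ) (K : Finset ℕ) (hK : K ⊆ Icc 1 B) (ρ : ℝ) (hρ1 : ρ ≠ 1)
    (φ : ℕ → ℕ) (K1 : Finset ℕ) (hK1 : K1 ⊆ K) (hφ : ∀ n ∈ K1, φ n ∈ K ∧ ((φ n : ℕ) : ℝ) = ρ * n)
    (b : ℕ) (hb : K1.card + b = K.card) : K.card ≤ (Nat.log 2 B + 1) * b := by
  classical
  rcases K1.eq_empty_or_nonempty with h | ⟨n0, hn0⟩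
  · subst h
    simp at hb
    rw [hb]
    nlinarith
  · have hpos : ∀ n ∈ K, 1 ≤ n := fun n hn => (mem_Icc.1 (hK hn)).1
    have hleB : ∀ n ∈ K, n ≤ B := fun n hn => (mem_Icc.1 (hK hn)).2
    have hn0K := hK1 hn0
    have hm0 := hφ n0 hn0
    have hne : φ n0 ≠ n0 := by
      intro h
      have h1 := hm0.2
      rw [h] at h1
      have h2 : (0 : ℝ) < n0 := by exact_mod_cast hpos n0 hn0K
      apply hρ1
      have : (ρ - 1) * n0 = 0 := by linarith
      rcases mul_eq_zero.1 this with h3 | h3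
      · linarith
      · exact absurd h3 h2.ne'
    obtain ⟨p, hp⟩ : ∃ p, (φ n0).factorization p ≠ n0.factorization p := by
      by_contra hcon
      push Not at hcon
      apply hne
      apply Nat.eq_of_factorization_eq
      · have := hpos _ hm0.1; omega
      · have := hpos _ hn0K; omega
      · exact hcon
    have hpp : p.Prime := by
      by_contra hnp
      apply hp
      rw [Nat.factorization_eq_zero_of_not_prime _ hnp, Nat.factorization_eq_zero_of_not_prime _ hnp]
    set v : ℕ → ℤ := fun n => (n.factorization p : ℤ) with hv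
    set V : ℤ := (Nat.log 2 B : ℤ) with hV
    have hv0 : ∀ n, 0 ≤ v n := fun n => by simp [hv]
    have hvV : ∀ n ∈ K, v n ≤ V := by
      intro n hn
      simp only [hv, hV]
      norm_cast
      apply Nat.le_log_of_pow_le (by norm_num)
      have h1 : p ^ (n.factorization p) ∣ n := Nat.ordProj_dvd n p
      have h2 := Nat.le_of_dvd (by have := hpos n hn; omega) h1
      calc 2 ^ (n.factorization p) ≤ p ^ (n.factorization p) := Nat.pow_le_pow_left hpp.two_le _
        _ ≤ n := h2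
        _ ≤ B := hleB n hn
    have hshift : ∀ n ∈ K1, v (φ n) - v n = v (φ n0) - v n0 := by
      intro n hn
      have h1 := hφ n hn
      have h2 : φ n * n0 = n * φ n0 := by
        have : ((φ n : ℕ) : ℝ) * n0 = n * ((φ n0 : ℕ) : ℝ) := by
          rw [h1.2, hm0.2]; ring
        exact_mod_cast this
      have h3 := congrArg (fun m => m.factorization p) h2
      have a1 : φ n ≠ 0 := by have := hpos _ h1.1; omega
      have a2 : n0 ≠ 0 := by have := hpos _ hn0K; omega
      have a3 : n ≠ 0 := by have := hpos _ (hK1 hn); omega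
      have a4 : φ n0 ≠ 0 := by have := hpos _ hm0.1; omega
      simp only [Nat.factorization_mul a1 a2, Nat.factorization_mul a3 a4, Finsupp.add_apply] at h3
      simp only [hv]
      omega
    set δ := v (φ n0) - v n0 with hδ
    have hδ0 : δ ≠ 0 := by
      intro h
      apply hp
      simp only [hδ, hv] at h
      omega
    have hinj : Set.InjOn φ K1 := by
      intro n hn m hm h
      have h1 := (hφ n hn).2
      have h2 := (hφ m hm).2
      rw [h, h2] at h1
      have hρ0 : ρ ≠ 0 := by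
        rintro rfl
        have := hpos _ (hφ n hn).1
        have h3 := (hφ n hn).2
        rw [zero_mul] at h3
        have : ((φ n : ℕ) : ℝ) ≥ 1 := by exact_mod_cast this
        linarith
      have := mul_left_cancel₀ hρ0 h1
      exact_mod_cast this.symm
    set K1' := K1.image φ with hK1'
    have hcard' : K1'.card = K1.card := card_image_of_injOn hinj
    have hsub' : K1' ⊆ K := by
      intro m hm
      rw [hK1', mem_image] at hm
      obtain ⟨n, hn, rfl⟩ := hm
      exact (hφ n hn).1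
    have hsum1 : ∑ m ∈ K1', v m = ∑ n ∈ K1, v (φ n) := by
      rw [hK1', sum_image hinj]
    have hsum2 : ∑ n ∈ K1, v (φ n) - ∑ n ∈ K1, v n = K1.card * δ := by
      rw [← sum_sub_distrib, sum_congr rfl hshift, sum_const, nsmul_eq_mul]
    have hKa : ∑ n ∈ K, v n = ∑ n ∈ K \ K1, v n + ∑ n ∈ K1, v n := (sum_sdiff hK1).symm
    have hKb : ∑ n ∈ K, v n = ∑ n ∈ K \ K1', v n + ∑ n ∈ K1', v n := (sum_sdiff hsub').symm
    have hbz : ((K \ K1).card : ℤ) = b := by
      rw [card_sdiff_of_subset hK1]; omega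
    have hbz' : ((K \ K1').card : ℤ) = b := by
      rw [card_sdiff_of_subset hsub', hcard']; omega
    have hA : ∑ n ∈ K \ K1, v n ≤ b * V := by
      have := Finset.sum_le_card_nsmul (K \ K1) v V (fun n hn => hvV n (mem_sdiff.1 hn).1)
      rw [nsmul_eq_mul, hbz] at this
      exact this
    have hA' : ∑ n ∈ K \ K1', v n ≤ b * V := by
      have := Finset.sum_le_card_nsmul (K \ K1') v V (fun n hn => hvV n (mem_sdiff.1 hn).1)
      rw [nsmul_eq_mul, hbz'] at this
      exact this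
    have hA0 : 0 ≤ ∑ n ∈ K \ K1, v n := sum_nonneg fun n _ => hv0 n
    have hA0' : 0 ≤ ∑ n ∈ K \ K1', v n := sum_nonneg fun n _ => hv0 n
    have habs : (K1.card : ℤ) ≤ b * V := by
      have h1 : (K1.card : ℤ) * δ ≤ b * V := by linarith
      have h2 : -(b * V) ≤ (K1.card : ℤ) * δ := by linarith
      have hc0 : (0 : ℤ) ≤ K1.card := by positivity
      rcases lt_or_gt_of_ne hδ0 with h | h
      · nlinarith
      · nlinarith
    have hfin : (K.card : ℤ) ≤ ((Nat.log 2 B + 1) * b : ℕ) := by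
      push_cast
      rw [← hV]
      have : (K.card : ℤ) = K1.card + b := by exact_mod_cast hb.symm
      linarith
    exact_mod_cast hfin

/-- Pigeonhole over nested superlevel sets. -/
lemma pigeon (a : ℕ → ℕ) (B ℓ : ℕ) (hℓ : 1 ≤ ℓ) (hB : B < 2 ^ ℓ) (h0 : 1 ≤ a 0)
    (hlast : a (2 * ℓ * ℓ) ≤ B) :
    ∃ i < 2 * ℓ * ℓ, (a (i + 1) : ℝ) ≤ (1 + 1 / (2 * ℓ)) * a i := by
  by_contra hcon
  push Not at hcon
  have hℓ' : (0 : ℝ) < ℓ := by exact_mod_cast hℓ
  have hgrow : ∀ i ≤ 2 * ℓ * ℓ, (1 + 1 / (2 * (ℓ : ℝ))) ^ i ≤ a i := by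
    intro i
    induction i with
    | zero => intro _; simpa using h0
    | succ i ih =>
      intro hi
      have h1 := ih (by omega)
      have h2 := hcon i (by omega)
      rw [pow_succ]
      have : (0 : ℝ) < 1 + 1 / (2 * (ℓ : ℝ)) := by positivity
      nlinarith
  have h1 := hgrow _ le_rfl
  have h2 : (2 : ℝ) ^ ℓ ≤ (1 + 1 / (2 * (ℓ : ℝ))) ^ (2 * ℓ * ℓ) := by
    rw [pow_mul]
    apply pow_le_pow_left₀ (by norm_num)
    have := one_add_mul_le_pow (a := 1 / (2 * (ℓ : ℝ))) (by
      have : (0 : ℝ) ≤ 1 / (2 * (ℓ : ℝ)) := by positivity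
      linarith) (2 * ℓ)
    refine le_trans ?_ this
    push_cast
    have : (2 * (ℓ : ℝ)) * (1 / (2 * ℓ)) = 1 := by field_simp
    linarith
  have h3 : (B : ℝ) < 2 ^ ℓ := by exact_mod_cast hB
  have h4 : (a (2 * ℓ * ℓ) : ℝ) ≤ B := by exact_mod_cast hlast
  linarith

/-- The threshold lemma. -/
theorem threshold (B M : ℕ) (μ : ℝ → ℕ) (hM0 : 0 < M)
    (hμ : ∀ s, 0 < s → μ s ≠ 0 → ∃ n : ℕ, 1 ≤ n ∧ n ≤ B ∧ s = n)
    (hN0 : ∃ n ∈ Icc 1 B, μ (n : ℕ) = M) :
    ∃ K ⊆ Icc 1 B, K.Nonempty ∧ (∀ n ∈ K, (M : ℝ) / 2 ≤ μ (n : ℕ)) ∧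
      ∀ ρ : ℝ, 0 < ρ → ρ ≠ 1 →
        (∑ n ∈ K, (μ (ρ * n) : ℝ)) + M * K.card / (8 * ((Nat.log 2 B + 1 : ℕ) : ℝ) ^ 3) ≤
          ∑ n ∈ K, (μ (n : ℕ) : ℝ) := by
  classical
  set ℓ := Nat.log 2 B + 1 with hℓ
  have hℓ1 : 1 ≤ ℓ := by omega
  have hℓ' : (0 : ℝ) < ℓ := by exact_mod_cast hℓ1
  have hMr : (0 : ℝ) < M := by exact_mod_cast hM0
  set R : ℕ := 2 * ℓ * ℓ with hR
  have hR0 : (0 : ℝ) < R := by rw [hR]; push_cast; positivity
  let T : ℕ → ℝ := fun i => M * (1 - i / (2 * R))
  let Kf : ℕ → Finset ℕ := fun i => (Icc 1 B).filter (fun n => T i ≤ μ (n : ℕ))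
  have hTanti : ∀ i, T (i + 1) = T i - M / (2 * R) := by
    intro i
    simp only [T]
    push_cast
    field_simp
    ring
  obtain ⟨i, hi, hpig⟩ := pigeon (fun i => (Kf i).card) B ℓ hℓ1
    (by rw [hℓ]; exact Nat.lt_pow_succ_log_self (by norm_num) B)
    (by
      obtain ⟨n, hn, hnM⟩ := hN0
      have : n ∈ Kf 0 := by
        simp only [Kf, mem_filter]
        refine ⟨hn, ?_⟩
        rw [hnM]; simp [T]
      exact Finset.card_pos.2 ⟨n, this⟩)
    (by
      have := card_filter_le (Icc 1 B) (fun n => T (2 * ℓ * ℓ) ≤ μ (n : ℕ))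
      simpa [Kf] using this)
  set K := Kf i with hKdef
  set K' := Kf (i + 1) with hK'def
  have hKB : K ⊆ Icc 1 B := filter_subset _ _
  have hKne : K.Nonempty := by
    obtain ⟨n, hn, hnM⟩ := hN0
    refine ⟨n, ?_⟩
    simp only [hKdef, Kf, mem_filter]
    refine ⟨hn, ?_⟩
    rw [hnM]
    simp only [T]
    have : (0 : ℝ) ≤ i / (2 * R) := by positivity
    nlinarith
  have hTi : (M : ℝ) / 2 ≤ T i := by
    simp only [T]
    have h1 : (i : ℝ) ≤ R := by exact_mod_cast hi.le
    have h2 : (i : ℝ) / (2 * R) ≤ 1 / 2 := by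
      rw [div_le_div_iff₀ (by positivity) (by norm_num)]
      linarith
    nlinarith
  have hT'0 : 0 < T (i + 1) := by
    rw [hTanti]
    have h1 : (i : ℝ) + 1 ≤ R := by exact_mod_cast hi
    simp only [T]
    have h2 : (M : ℝ) * (1 - i / (2 * R)) - M / (2 * R) = M * (1 - (i + 1) / (2 * R)) := by
      field_simp; ring
    rw [h2]
    have h3 : ((i : ℝ) + 1) / (2 * R) ≤ 1 / 2 := by
      rw [div_le_div_iff₀ (by positivity) (by norm_num)]
      linarith
    nlinarith
  have hT0 : 0 < T i := by linarith [div_pos hMr (show (0 : ℝ) < 2 * R by positivity), hTanti i]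
  refine ⟨K, hKB, hKne, ?_, ?_⟩
  · intro n hn
    have h := (mem_filter.1 hn).2
    exact hTi.trans h
  · intro ρ hρ hρ1
    -- natural number values of ρ n
    let φ : ℕ → ℕ := fun n => if h : ∃ m : ℕ, (m : ℝ) = ρ * n then h.choose else 0
    have hφ : ∀ n : ℕ, (∃ m : ℕ, (m : ℝ) = ρ * n) → ((φ n : ℕ) : ℝ) = ρ * n := by
      intro n h
      simp only [φ, h, dif_pos]
      exact h.choose_spec
    set K1 := K.filter (fun n : ℕ => ∃ m ∈ K, (m : ℝ) = ρ * n) with hK1
    set K2 := K.filter (fun n : ℕ => ¬ ∃ m ∈ K, (m : ℝ) = ρ * n) with hK2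
    have hK1K : K1 ⊆ K := filter_subset _ _
    have hcards : K1.card + K2.card = K.card := card_filter_add_card_filter_not _
    have hφ1 : ∀ n ∈ K1, φ n ∈ K ∧ ((φ n : ℕ) : ℝ) = ρ * n := by
      intro n hn
      rw [hK1, mem_filter] at hn
      obtain ⟨_, m, hm, hmn⟩ := hn
      have h1 := hφ n ⟨m, hmn⟩
      have h2 : φ n = m := by
        have : ((φ n : ℕ) : ℝ) = m := by rw [h1, hmn]
        exact_mod_cast this
      exact ⟨h2 ▸ hm, h1⟩
    have hob := orbit_bound B K hKB ρ hρ1 φ K1 hK1K hφ1 K2.card hcards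
    rw [← hℓ] at hob
    have hinj : Set.InjOn φ K1 := by
      intro n hn m hm h
      have h1 := (hφ1 n hn).2
      have h2 := (hφ1 m hm).2
      rw [h, h2] at h1
      have := mul_left_cancel₀ hρ.ne' h1
      exact_mod_cast this.symm
    set K1' := K1.image φ with hK1'
    have hsub' : K1' ⊆ K := by
      intro m hm
      rw [hK1', mem_image] at hm
      obtain ⟨n, hn, rfl⟩ := hm
      exact (hφ1 n hn).1
    have hcard' : K1'.card = K1.card := card_image_of_injOn hinj
    -- first part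
    have hS1 : ∑ n ∈ K1, (μ (ρ * n) : ℝ) = ∑ m ∈ K1', (μ (m : ℕ) : ℝ) := by
      rw [hK1', sum_image hinj]
      apply sum_congr rfl
      intro n hn
      rw [(hφ1 n hn).2]
    have hKb : ∑ m ∈ K, (μ (m : ℕ) : ℝ) = ∑ m ∈ K \ K1', (μ (m : ℕ) : ℝ) + ∑ m ∈ K1', (μ (m : ℕ) : ℝ) :=
      (sum_sdiff hsub').symm
    have hcd : (K \ K1').card = K2.card := by
      rw [card_sdiff_of_subset hsub', hcard']; omega
    have hlow : (K2.card : ℝ) * T i ≤ ∑ m ∈ K \ K1', (μ (m : ℕ) : ℝ) := by
      have := Finset.card_nsmul_le_sum (K \ K1') (fun m => (μ (m : ℕ) : ℝ)) (T i) (by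
        intro m hm
        exact (mem_filter.1 (mem_sdiff.1 hm).1).2)
      rw [nsmul_eq_mul, hcd] at this
      exact this
    -- second part
    set K2a := K2.filter (fun n : ℕ => T (i + 1) ≤ (μ (ρ * n) : ℝ)) with hK2a
    set K2b := K2.filter (fun n : ℕ => ¬ T (i + 1) ≤ (μ (ρ * n) : ℝ)) with hK2b
    have hc2 : K2a.card + K2b.card = K2.card := card_filter_add_card_filter_not _
    have hval : ∀ n ∈ K2, (μ (ρ * n) : ℝ) ≤ T i := by
      intro n hn
      rw [hK2, mem_filter] at hn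
      by_contra hcon
      push Not at hcon
      have hne : μ (ρ * n) ≠ 0 := by
        intro h0
        rw [h0] at hcon
        simp at hcon
        linarith
      have hn1 : 1 ≤ n := (mem_Icc.1 (hKB hn.1)).1
      have hn1' : (0 : ℝ) < n := by exact_mod_cast hn1
      obtain ⟨m, hm1, hm2, hm3⟩ := hμ (ρ * n) (by positivity) hne
      apply hn.2
      refine ⟨m, ?_, hm3.symm⟩
      simp only [hKdef, Kf, mem_filter, mem_Icc]
      refine ⟨⟨hm1, hm2⟩, ?_⟩
      rw [← hm3]
      exact hcon.le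
    have hsa : ∑ n ∈ K2a, (μ (ρ * n) : ℝ) ≤ K2a.card * T i := by
      have := Finset.sum_le_card_nsmul K2a (fun n => (μ (ρ * n) : ℝ)) (T i) (by
        intro n hn
        exact hval n (mem_filter.1 hn).1)
      rwa [nsmul_eq_mul] at this
    have hsb : ∑ n ∈ K2b, (μ (ρ * n) : ℝ) ≤ K2b.card * T (i + 1) := by
      have := Finset.sum_le_card_nsmul K2b (fun n => (μ (ρ * n) : ℝ)) (T (i + 1)) (by
        intro n hn
        exact (not_le.1 (mem_filter.1 hn).2).le)
      rwa [nsmul_eq_mul] at this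
    have hKK' : K ⊆ K' := by
      intro n hn
      simp only [hKdef, hK'def, Kf, mem_filter] at hn ⊢
      refine ⟨hn.1, ?_⟩
      have := hTanti i
      have h2 : 0 < (M : ℝ) / (2 * R) := by positivity
      linarith [hn.2]
    have hacard : K2a.card ≤ (K' \ K).card := by
      apply Finset.card_le_card_of_injOn φ
      · intro n hn
        have hn' := Finset.mem_coe.1 hn
        rw [hK2a, mem_filter, hK2, mem_filter] at hn'
        obtain ⟨⟨hnK, hnot⟩, hT⟩ := hn'
        have hne : μ (ρ * n) ≠ 0 := by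
          intro h0
          rw [h0] at hT
          simp at hT
          linarith
        have hn1 : 1 ≤ n := (mem_Icc.1 (hKB hnK)).1
        have hn1' : (0 : ℝ) < n := by exact_mod_cast hn1
        obtain ⟨m, hm1, hm2, hm3⟩ := hμ (ρ * n) (by positivity) hne
        have h1 := hφ n ⟨m, hm3.symm⟩
        have h2 : φ n = m := by
          have : ((φ n : ℕ) : ℝ) = m := by rw [h1, hm3]
          exact_mod_cast this
        rw [Finset.mem_coe, mem_sdiff, h2]
        constructor
        · simp only [hK'def, Kf, mem_filter, mem_Icc]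
          refine ⟨⟨hm1, hm2⟩, ?_⟩
          rw [← hm3]; exact hT
        · intro hmK
          exact hnot ⟨m, hmK, hm3.symm⟩
      · intro n hn m hm h
        have hex : ∀ n ∈ K2a, ∃ m : ℕ, (m : ℝ) = ρ * n := by
          intro n hn'
          rw [hK2a, mem_filter, hK2, mem_filter] at hn'
          obtain ⟨⟨hnK, hnot⟩, hT⟩ := hn'
          have hne : μ (ρ * n) ≠ 0 := by
            intro h0
            rw [h0] at hT
            simp at hT
            linarith
          have hn1 : 1 ≤ n := (mem_Icc.1 (hKB hnK)).1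
          have hn1' : (0 : ℝ) < n := by exact_mod_cast hn1
          obtain ⟨m, hm1, hm2, hm3⟩ := hμ (ρ * n) (by positivity) hne
          exact ⟨m, hm3.symm⟩
        have h1 := hφ n (hex n hn)
        have h2 := hφ m (hex m hm)
        rw [h, h2] at h1
        have := mul_left_cancel₀ hρ.ne' h1
        exact_mod_cast this.symm
    have hacard' : (K2a.card : ℝ) ≤ 1 / (2 * ℓ) * K.card := by
      have h1 : (K' \ K).card + K.card = K'.card := by
        rw [card_sdiff_of_subset hKK']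
        have := card_le_card hKK'
        omega
      have h2 : ((K' \ K).card : ℝ) + K.card = K'.card := by exact_mod_cast h1
      have h3 : (K2a.card : ℝ) ≤ (K' \ K).card := by exact_mod_cast hacard
      have h4 : (K'.card : ℝ) ≤ (1 + 1 / (2 * ℓ)) * K.card := hpig
      linarith
    have hb' : (K.card : ℝ) / ℓ ≤ K2.card := by
      rw [div_le_iff₀ hℓ']
      have : (K.card : ℝ) ≤ ℓ * K2.card := by exact_mod_cast hob
      linarith
    have htotal : ∑ n ∈ K, (μ (ρ * n) : ℝ) = ∑ n ∈ K1, (μ (ρ * n) : ℝ) +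
        (∑ n ∈ K2a, (μ (ρ * n) : ℝ) + ∑ n ∈ K2b, (μ (ρ * n) : ℝ)) := by
      rw [hK2a, hK2b, sum_filter_add_sum_filter_not, hK1, hK2, sum_filter_add_sum_filter_not]
    have hc2' : (K2a.card : ℝ) + K2b.card = K2.card := by exact_mod_cast hc2
    have hRval : (R : ℝ) = 2 * ℓ * ℓ := by rw [hR]; push_cast; ring
    have hgap : (M : ℝ) * K.card / (8 * (ℓ : ℝ) ^ 3) ≤ (K2b.card : ℝ) * (M / (2 * R)) := by
      have h1 : (K.card : ℝ) / (2 * ℓ) ≤ K2b.card := by
        have e : (K.card : ℝ) / ℓ = K.card / (2 * ℓ) + 1 / (2 * ℓ) * K.card := by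
          field_simp; ring
        linarith
      calc (M : ℝ) * K.card / (8 * (ℓ : ℝ) ^ 3) = (K.card / (2 * ℓ)) * (M / (2 * R)) := by
            rw [hRval]; field_simp; ring
        _ ≤ _ := by gcongr
    have hT' := hTanti i
    rw [htotal, hS1]
    rw [hT'] at hsb
    have hfin : ∑ m ∈ K1', (μ (m : ℕ) : ℝ) + (K2a.card * T i + K2b.card * (T i - M / (2 * R)))
        + K2b.card * (M / (2 * R)) ≤ ∑ m ∈ K, (μ (m : ℕ) : ℝ) := by
      rw [hKb]
      have : (K2a.card : ℝ) * T i + K2b.card * (T i - M / (2 * R)) + K2b.card * (M / (2 * R))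
          = K2.card * T i := by
        rw [← hc2']; ring
      linarith
    linarith

end Pool.Agent.Work.MP_cf6fa9_co
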