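import Mathlib

set_option autoImplicit false

namespace Pool.Agent.Work.MP_cf6fa9_co

open Finset MeasureTheory

/-- The Euclidean plane. -/
abbrev E := EuclideanSpace ℝ (Fin 2)

open Classical in
/-- Number of pairs in `X × Y` at distance `r`. -/
noncomputable def PP (X Y : Finset E) (r : ℝ) : ℕ := ((X ×ˢ Y).filter (fun q => dist q.1 q.2 = r)).card

lemma PP_pos {X Y : Finset E} {r : ℝ} (h : PP X Y r ≠ 0) : ∃ x ∈ X, ∃ y ∈ Y, dist x y = r := by
  classical
  unfold PP at h
  rw [Finset.card_ne_zero] at h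
  obtain ⟨q, hq⟩ := h
  rw [mem_filter, mem_product] at hq
  exact ⟨q.1, hq.1.1, q.2, hq.1.2, hq.2⟩

lemma PP_union_left {X Y Z : Finset E} (h : Disjoint X Y) (r : ℝ) [DecidableEq E] :
    PP (X ∪ Y) Z r = PP X Z r + PP Y Z r := by
  classical
  unfold PP
  rw [union_product, filter_union, card_union_of_disjoint]
  rw [Finset.disjoint_left]
  intro q hq1 hq2
  rw [mem_filter, mem_product] at hq1 hq2
  exact (Finset.disjoint_left.1 h) hq1.1.1 hq2.1.1

lemma PP_comm (X Y : Finset E) (r : ℝ) : PP X Y r = PP Y X r := by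
  classical
  unfold PP
  refine Finset.card_bij' (fun q _ => (q.2, q.1)) (fun q _ => (q.2, q.1)) ?_ ?_ ?_ ?_
  · intro q hq
    rw [mem_filter, mem_product] at hq ⊢
    exact ⟨⟨hq.1.2, hq.1.1⟩, by rw [dist_comm]; exact hq.2⟩
  · intro q hq
    rw [mem_filter, mem_product] at hq ⊢
    exact ⟨⟨hq.1.2, hq.1.1⟩, by rw [dist_comm]; exact hq.2⟩
  · intro q _; rfl
  · intro q _; rfl

lemma PP_map (f : E ↪ E) (X Y : Finset E) (r r' : ℝ) (hf : ∀ x y, dist (f x) (f y) = r ↔ dist x y = r') :
    PP (X.map f) (Y.map f) r = PP X Y r' := by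
  classical
  unfold PP
  symm
  apply Finset.card_bij (fun q _ => (f q.1, f q.2))
  · intro q hq
    rw [mem_filter, mem_product] at hq ⊢
    exact ⟨⟨mem_map_of_mem f hq.1.1, mem_map_of_mem f hq.1.2⟩, (hf _ _).2 hq.2⟩
  · intro q _ q' _ h
    rw [Prod.mk.injEq] at h
    exact Prod.ext (f.injective h.1) (f.injective h.2)
  · intro q hq
    rw [mem_filter, mem_product, mem_map, mem_map] at hq
    obtain ⟨⟨⟨x, hx, h1⟩, ⟨y, hy, h2⟩⟩, h3⟩ := hq
    refine ⟨(x, y), ?_, ?_⟩
    · rw [mem_filter, mem_product]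
      refine ⟨⟨hx, hy⟩, ?_⟩
      rw [← h1, ← h2] at h3
      exact (hf _ _).1 h3
    · ext <;> simp [h1, h2]

/-- Translation as an embedding. -/
def tr (t : E) : E ↪ E := ⟨fun y => y + t, add_left_injective t⟩

lemma null_sphere (x y : E) (δ : ℝ) : volume {t : E | dist x (y + t) = δ} = 0 := by
  have h : {t : E | dist x (y + t) = δ} = Metric.sphere (x - y) δ := by
    ext t
    simp only [Set.mem_ofPred_eq, Metric.mem_sphere]
    rw [dist_eq_norm, dist_eq_norm, ← norm_neg]
    have : -(x - (y + t)) = t - (x - y) := by abel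
    rw [this]
  rw [h]
  exact Measure.addHaar_sphere volume (x - y) δ

lemma null_bisector (u v : E) (h : u ≠ v) : volume {t : E | dist t u = dist t v} = 0 := by
  have hne : AffineSubspace.perpBisector u v ≠ ⊤ := by
    intro htop
    rw [AffineSubspace.perpBisector_eq_top] at htop
    exact h htop
  refine measure_mono_null ?_ (Measure.addHaar_affineSubspace volume _ hne)
  intro t ht
  simp only [Set.mem_ofPred_eq] at ht
  rw [SetLike.mem_coe, AffineSubspace.mem_perpBisector_iff_dist_eq]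
  exact ht

/-- A generic translation. -/
lemma exists_translation (X Y : Finset E) (Δ : Finset ℝ) :
    ∃ t : E, (∀ x ∈ X, ∀ y ∈ Y, x ≠ y + t) ∧ (∀ x ∈ X, ∀ y ∈ Y, dist x (y + t) ∉ Δ) ∧
      (∀ x ∈ X, ∀ y ∈ Y, ∀ x' ∈ X, ∀ y' ∈ Y, dist x (y + t) = dist x' (y' + t) →
        x - y = x' - y') := by
  classical
  let Bad : Set E :=
    (⋃ x ∈ X, ⋃ y ∈ Y, ⋃ δ ∈ insert 0 Δ, {t : E | dist x (y + t) = δ}) ∪
    (⋃ x ∈ X, ⋃ y ∈ Y, ⋃ x' ∈ X, ⋃ y' ∈ Y, ⋃ (_ : x - y ≠ x' - y'),
      {t : E | dist t (x - y) = dist t (x' - y')})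
  have hBad : volume Bad = 0 := by
    apply measure_union_null
    · refine (measure_biUnion_null_iff X.countable_toSet).2 fun x _ => ?_
      refine (measure_biUnion_null_iff Y.countable_toSet).2 fun y _ => ?_
      refine (measure_biUnion_null_iff (insert 0 Δ).countable_toSet).2 fun δ _ => ?_
      exact null_sphere x y δ
    · refine (measure_biUnion_null_iff X.countable_toSet).2 fun x _ => ?_
      refine (measure_biUnion_null_iff Y.countable_toSet).2 fun y _ => ?_
      refine (measure_biUnion_null_iff X.countable_toSet).2 fun x' _ => ?_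
      refine (measure_biUnion_null_iff Y.countable_toSet).2 fun y' _ => ?_
      refine measure_iUnion_null fun h => ?_
      exact null_bisector _ _ h
  have hex : ∃ t, t ∉ Bad := by
    by_contra hcon
    push Not at hcon
    have : Bad = Set.univ := Set.eq_univ_of_forall hcon
    rw [this] at hBad
    exact (Measure.measure_univ_ne_zero.2 (NeZero.ne (volume : Measure E))) hBad
  obtain ⟨t, ht⟩ := hex
  simp only [Bad, Set.mem_union, Set.mem_iUnion, not_or, not_exists] at ht
  obtain ⟨h1, h2⟩ := ht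
  refine ⟨t, ?_, ?_, ?_⟩
  · intro x hx y hy hxy
    refine h1 x hx y hy 0 (mem_insert_self _ _) ?_
    simp only [Set.mem_ofPred_eq]
    rw [← hxy, dist_self]
  · intro x hx y hy hd
    exact h1 x hx y hy _ (mem_insert_of_mem hd) rfl
  · intro x hx y hy x' hx' y' hy' hd
    by_contra hne
    refine h2 x hx y hy x' hx' y' hy' hne ?_
    simp only [Set.mem_ofPred_eq]
    have e1 : dist t (x - y) = dist x (y + t) := by
      rw [dist_eq_norm, dist_eq_norm, ← norm_neg]
      congr 1; abel
    have e2 : dist t (x' - y') = dist x' (y' + t) := by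
      rw [dist_eq_norm, dist_eq_norm, ← norm_neg]
      congr 1; abel
    rw [e1, e2, hd]

/-- Generic unions of finite sets. -/
theorem generic_union (C : ℕ) (Δ : Finset ℝ) (l : List (Finset E))
    (hC : ∀ Y ∈ l, Y.card ≤ C) (hΔ : ∀ Y ∈ l, ∀ x ∈ Y, ∀ y ∈ Y, x ≠ y → dist x y ∈ Δ) :
    ∃ X : Finset E, X.card = (l.map Finset.card).sum ∧
      (∀ r, 0 < r → r ∈ Δ → PP X X r = (l.map (fun Y => PP Y Y r)).sum) ∧
      (∀ r, 0 < r → r ∉ Δ → PP X X r ≤ 2 * C) := by
  classical
  induction l with
  | nil => exact ⟨∅, by simp, by simp [PP], by simp [PP]⟩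
  | cons Y l ih =>
    obtain ⟨X, hX1, hX2, hX3⟩ := ih (fun Z hZ => hC Z (List.mem_cons_of_mem _ hZ))
      (fun Z hZ => hΔ Z (List.mem_cons_of_mem _ hZ))
    obtain ⟨t, ht1, ht2, ht3⟩ := exists_translation X Y (Δ ∪ (X ×ˢ X).image (fun q => dist q.1 q.2))
    set Y' := Y.map (tr t) with hY'
    have hdisj : Disjoint X Y' := by
      rw [Finset.disjoint_left]
      intro x hx hx'
      rw [hY', mem_map] at hx'
      obtain ⟨y, hy, hyx⟩ := hx'
      exact ht1 x hx y hy hyx.symm
    have hYY : ∀ r, PP Y' Y' r = PP Y Y r := by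
      intro r
      apply PP_map
      intro x y
      simp [tr]
    have hcr : ∀ r, PP X Y' r ≤ Y.card := by
      intro r
      unfold PP
      rw [← Finset.card_map (tr t), ← hY']
      apply Finset.card_le_card_of_injOn (fun q => q.2)
      · intro q hq
        have hq' := Finset.mem_coe.1 hq
        rw [mem_filter, mem_product] at hq'
        exact hq'.1.2
      · rintro ⟨x, y⟩ hq ⟨x', y'⟩ hq' hyy
        simp only [coe_filter, Set.mem_ofPred_eq, mem_product] at hq hq' hyy
        subst hyy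
        obtain ⟨⟨hx, hy⟩, hd⟩ := hq
        obtain ⟨⟨hx', _⟩, hd'⟩ := hq'
        rw [hY', mem_map] at hy
        obtain ⟨z, hz, hzy⟩ := hy
        have hzy' : y = z + t := hzy.symm
        rw [hzy'] at hd hd'
        have := ht3 x hx z hz x' hx' z hz (hd.trans hd'.symm)
        have hxx : x = x' := by simpa using this
        rw [hxx]
    have hcr0 : ∀ r, r ∈ Δ ∨ PP X X r ≠ 0 → PP X Y' r = 0 := by
      intro r hr
      by_contra hne
      obtain ⟨x, hx, y, hy, hd⟩ := PP_pos hne
      rw [hY', mem_map] at hy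
      obtain ⟨z, hz, hzy⟩ := hy
      have hzy' : y = z + t := hzy.symm
      rw [hzy'] at hd
      apply ht2 x hx z hz
      rw [hd, mem_union]
      rcases hr with h | h
      · left; exact h
      · right
        obtain ⟨a, ha, b, hb, hab⟩ := PP_pos h
        rw [mem_image]
        exact ⟨(a, b), mem_product.2 ⟨ha, hb⟩, hab⟩
    have htot : ∀ r, PP (X ∪ Y') (X ∪ Y') r = PP X X r + PP Y Y r + 2 * PP X Y' r := by
      intro r
      rw [PP_union_left hdisj, PP_comm X (X ∪ Y'), PP_comm Y' (X ∪ Y'), PP_union_left hdisj,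
        PP_union_left hdisj, PP_comm Y' X, hYY]
      ring
    refine ⟨X ∪ Y', ?_, ?_, ?_⟩
    · rw [card_union_of_disjoint hdisj, hX1, hY', Finset.card_map]
      simp; ring
    · intro r hr hrΔ
      rw [htot, hcr0 r (Or.inl hrΔ), hX2 r hr hrΔ]
      simp; ring
    · intro r hr hrΔ
      rw [htot]
      have hYr : PP Y Y r = 0 := by
        by_contra hne
        obtain ⟨x, hx, y, hy, hd⟩ := PP_pos hne
        have hxy : x ≠ y := by
          rintro rfl
          rw [dist_self] at hd
          linarith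
        exact hrΔ (hd ▸ hΔ Y List.mem_cons_self x hx y hy hxy)
      rw [hYr]
      by_cases hX0 : PP X X r = 0
      · have h1 := hcr r
        have h2 := hC Y List.mem_cons_self
        omega
      · rw [hcr0 r (Or.inr hX0)]
        have := hX3 r hr hrΔ
        omega

end Pool.Agent.Work.MP_cf6fa9_co
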