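import Pool.Agent.Work.MP_cf6fa9_co.Reps
import Pool.Agent.Work.MP_cf6fa9_co.Union
import Pool.Agent.Work.MP_cf6fa9_co.Threshold

set_option autoImplicit false

namespace Pool.Agent.Work.MP_cf6fa9_co

open Finset

/-- Embedding of the integer lattice. -/
noncomputable def latt : ℤ × ℤ ↪ E :=
  ⟨fun p => !₂[(p.1 : ℝ), (p.2 : ℝ)], by
    intro p q h
    have h0 := congrArg (fun v : E => v 0) h
    have h1 := congrArg (fun v : E => v 1) h
    simp at h0 h1
    exact Prod.ext h0 h1⟩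

lemma latt_zero (p : ℤ × ℤ) : (latt p) 0 = p.1 := rfl

lemma latt_one (p : ℤ × ℤ) : (latt p) 1 = p.2 := rfl

lemma dist_latt (p q : ℤ × ℤ) :
    dist (latt p) (latt q) = √((((p.1 - q.1) ^ 2 + (p.2 - q.2) ^ 2 : ℤ)) : ℝ) := by
  rw [EuclideanSpace.dist_eq]
  simp [latt_zero, latt_one, Fin.sum_univ_two, Real.dist_eq, sq_abs]

/-- The square grid. -/
noncomputable def grid (s : ℕ) : Finset E :=
  ((Icc (-2 * (s : ℤ)) (2 * s)) ×ˢ (Icc (-2 * (s : ℤ)) (2 * s))).map latt

lemma card_grid (s : ℕ) : (grid s).card = (4 * s + 1) ^ 2 := by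
  rw [grid, card_map, card_product, Int.card_Icc]
  have : (2 * (s : ℤ) + 1 - -2 * s).toNat = 4 * s + 1 := by omega
  rw [this]; ring

lemma grid_value (s : ℕ) (t : ℝ) (ht : 0 < t) (h : PP (grid s) (grid s) (√t) ≠ 0) :
    ∃ n : ℕ, 1 ≤ n ∧ n ≤ 32 * s ^ 2 ∧ t = n := by
  obtain ⟨x, hx, y, hy, hd⟩ := PP_pos h
  rw [grid, mem_map] at hx hy
  obtain ⟨p, hp, rfl⟩ := hx
  obtain ⟨q, hq, rfl⟩ := hy
  rw [dist_latt] at hd
  rw [mem_product, mem_Icc, mem_Icc] at hp hq
  set N : ℤ := (p.1 - q.1) ^ 2 + (p.2 - q.2) ^ 2 with hN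
  have hN0 : (0 : ℤ) ≤ N := by positivity
  have hN0' : (0 : ℝ) ≤ (N : ℝ) := by exact_mod_cast hN0
  have ht' : t = (N : ℝ) := by
    have h5 : (√(N : ℝ)) ^ 2 = (√t) ^ 2 := by rw [hd]
    rw [Real.sq_sqrt hN0', Real.sq_sqrt ht.le] at h5
    exact h5.symm
  have hNpos : 0 < N := by
    have : (0 : ℝ) < N := ht' ▸ ht
    exact_mod_cast this
  refine ⟨N.toNat, by omega, ?_, ?_⟩
  · have h1 : (p.1 - q.1) ^ 2 ≤ (4 * (s : ℤ)) ^ 2 := by
      apply sq_le_sq'
      · linarith [hp.1.1, hq.1.2]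
      · linarith [hp.1.2, hq.1.1]
    have h2 : (p.2 - q.2) ^ 2 ≤ (4 * (s : ℤ)) ^ 2 := by
      apply sq_le_sq'
      · linarith [hp.2.1, hq.2.2]
      · linarith [hp.2.2, hq.2.1]
    have h3 : N ≤ 32 * (s : ℤ) ^ 2 := by rw [hN]; linarith
    have h4 : ((32 * s ^ 2 : ℕ) : ℤ) = 32 * (s : ℤ) ^ 2 := by push_cast; ring
    rw [← h4] at h3
    omega
  · rw [ht']
    have : ((N.toNat : ℕ) : ℤ) = N := Int.toNat_of_nonneg hN0
    exact_mod_cast this.symm

/-- Scaling. -/
noncomputable def scale (c : ℝ) (hc : c ≠ 0) : E ↪ E := ⟨fun x => c • x, smul_right_injective E hc⟩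

lemma PP_scale (G : Finset E) (c : ℝ) (hc : 0 < c) (r : ℝ) :
    PP (G.map (scale c hc.ne')) (G.map (scale c hc.ne')) r = PP G G (r / c) := by
  apply PP_map
  intro x y
  simp only [scale, Function.Embedding.coeFn_mk, dist_smul₀, Real.norm_of_nonneg hc.le]
  rw [eq_div_iff hc.ne', mul_comm]

lemma list_sum_rep {α : Type*} (q : ℕ) (L : List α) (f : α → ℕ) :
    (((List.replicate q L).flatten).map f).sum = q * (L.map f).sum := by
  induction q with
  | zero => simp
  | succ q ih =>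
    rw [List.replicate_succ, List.flatten_cons, List.map_append, List.sum_append, ih]
    ring

lemma PP_singleton (x : E) (r : ℝ) (hr : 0 < r) : PP {x} {x} r = 0 := by
  by_contra h
  obtain ⟨a, ha, b, hb, hd⟩ := PP_pos h
  rw [mem_singleton] at ha hb
  subst ha; subst hb
  rw [dist_self] at hd
  linarith

lemma num_fin {n q c K M ℓ Ln pk : ℝ} (hq : 0 < q) (hK : 0 < K) (hc : 0 < c)
    (hℓ : 1 ≤ ℓ) (hLn : ℓ ≤ Ln) (hpk : 0 < pk)
    (h1 : n ≤ 2 * (c * K * q)) (h2 : pk * c ≤ 4 * M) :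
    n * pk / (64 * Ln ^ 3) ≤ q * (M * K / (8 * ℓ ^ 3)) := by
  calc n * pk / (64 * Ln ^ 3)
      ≤ (2 * (c * K * q)) * pk / (64 * ℓ ^ 3) := by gcongr
    _ = (pk * c) * (K * q) / (32 * ℓ ^ 3) := by ring
    _ ≤ (4 * M) * (K * q) / (32 * ℓ ^ 3) := by gcongr
    _ = q * (M * K / (8 * ℓ ^ 3)) := by ring

lemma num_far {P q c K M ℓ pk S : ℝ} (hq : 1 ≤ q) (hK : 1 ≤ K) (hM : 0 < M) (hc : 0 < c)
    (hℓ : 1 ≤ ℓ) (hpk : 32 ≤ pk) (h2 : pk * c ≤ 4 * M) (hP : P ≤ 2 * c)
    (hS : M / 2 * K ≤ S) : P + q * (M * K / (8 * ℓ ^ 3)) ≤ q * S := by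
  have h3 : 8 * c ≤ M := by nlinarith
  have h5 : M * K / (8 * ℓ ^ 3) ≤ M * K / 8 := by
    apply div_le_div_of_nonneg_left (by positivity) (by norm_num)
    have : (1 : ℝ) ≤ ℓ ^ 3 := one_le_pow₀ hℓ
    linarith
  have h6 : M ≤ q * (M * K) := by
    have : (1 : ℝ) ≤ q * K := one_le_mul_of_one_le_of_one_le hq hK
    nlinarith
  have h7 : q * (M / 2 * K) ≤ q * S := mul_le_mul_of_nonneg_left hS (by linarith)
  have h8 : q * (M * K / (8 * ℓ ^ 3)) ≤ q * (M * K / 8) := mul_le_mul_of_nonneg_left h5 (by linarith)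
  nlinarith

theorem main_finite (k n : ℕ) (hk : 13 ≤ k)
    (hn : 800 * ((4 * ((8 * k) ^ 4) ^ 2 + 1) ^ k) ^ 4 ≤ n) :
    ∃ X : Finset E, X.card = n ∧ ∀ r : ℝ, 0 < r → r ≠ 1 →
      (PP X X r : ℝ) + n * 2 ^ k / (64 * ((Nat.log 2 n + 1 : ℕ) : ℝ) ^ 3) ≤ PP X X 1 := by
  classical
  obtain ⟨S, hSc, hS⟩ := exists_primes k hk
  set s : ℕ := ∏ p ∈ S, p with hs
  obtain ⟨W, hW1, hW2⟩ := many_reps S (fun p hp => ⟨(hS p hp).1, (hS p hp).2.1⟩)
  rw [← hs] at hW2
  rw [hSc] at hW1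
  have hs1 : 1 ≤ s := Finset.prod_pos fun p hp => (hS p hp).1.pos
  set A : ℕ := (4 * ((8 * k) ^ 4) ^ 2 + 1) ^ k with hA
  have hsA : s ≤ A := by
    rw [hs, hA, ← hSc]
    exact Finset.prod_le_pow_card _ _ _ (fun p hp => by rw [hSc]; exact (hS p hp).2.2)
  set G := grid s with hG
  set B : ℕ := 32 * s ^ 2 with hB
  have hB1 : 1 ≤ B := by rw [hB]; nlinarith [pow_pos (show 0 < s by omega) 2]
  set μ : ℝ → ℕ := fun t => PP G G (√t) with hμdef
  have hμ : ∀ t, 0 < t → μ t ≠ 0 → ∃ n : ℕ, 1 ≤ n ∧ n ≤ B ∧ t = n := by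
    intro t ht h
    exact grid_value s t ht h
  -- the popular distance
  have hpop : 2 ^ k * (2 * s + 1) ^ 2 ≤ μ (s : ℕ) := by
    have hinj : (W ×ˢ ((Icc (-(s : ℤ)) s) ×ˢ (Icc (-(s : ℤ)) s))).card ≤ μ (s : ℕ) := by
      simp only [hμdef, PP]
      apply Finset.card_le_card_of_injOn
        (fun q : (ℤ × ℤ) × (ℤ × ℤ) => (latt q.2, latt (q.2.1 + q.1.1, q.2.2 + q.1.2)))
      · rintro ⟨w, p⟩ hq
        have hq' := Finset.mem_coe.1 hq
        rw [mem_product, mem_product, mem_Icc, mem_Icc] at hq'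
        obtain ⟨hw, ⟨h1, h2⟩, ⟨h3, h4⟩⟩ := hq'
        simp only at hw h1 h2 h3 h4
        have hws := hW2 w hw
        have hw1 : |w.1| ≤ s := by
          have h5 : |w.1| ≤ |w.1| ^ 2 := Int.le_self_sq _
          rw [sq_abs] at h5
          linarith [sq_nonneg w.2]
        have hw2 : |w.2| ≤ s := by
          have h5 : |w.2| ≤ |w.2| ^ 2 := Int.le_self_sq _
          rw [sq_abs] at h5
          linarith [sq_nonneg w.1]
        rw [abs_le] at hw1 hw2
        rw [Finset.mem_coe, mem_filter, mem_product]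
        refine ⟨⟨?_, ?_⟩, ?_⟩
        · rw [hG, grid]
          apply mem_map_of_mem
          rw [mem_product, mem_Icc, mem_Icc]
          refine ⟨⟨?_, ?_⟩, ⟨?_, ?_⟩⟩ <;> linarith
        · rw [hG, grid]
          apply mem_map_of_mem
          rw [mem_product, mem_Icc, mem_Icc]
          refine ⟨⟨?_, ?_⟩, ⟨?_, ?_⟩⟩ <;> simp only <;> linarith
        · rw [dist_latt]
          congr 1
          have : (p.1 - (p.1 + w.1)) ^ 2 + (p.2 - (p.2 + w.2)) ^ 2 = (s : ℤ) := by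
            rw [← hws]; ring
          simp only
          rw [this]
          norm_cast
      · rintro ⟨w, p⟩ _ ⟨w', p'⟩ _ h
        simp only [Prod.mk.injEq] at h
        obtain ⟨h1, h2⟩ := h
        have e1 := latt.injective h1
        have e2 := latt.injective h2
        subst e1
        rw [Prod.mk.injEq] at e2
        ext <;> simp <;> linarith [e2.1, e2.2]
    refine le_trans ?_ hinj
    rw [card_product, card_product, Int.card_Icc]
    have : ((s : ℤ) + 1 - -s).toNat = 2 * s + 1 := by omega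
    rw [this, pow_two (2 * s + 1)]
    exact Nat.mul_le_mul_right _ hW1
  have hsB : s ∈ Icc 1 B := by
    rw [mem_Icc]
    refine ⟨hs1, ?_⟩
    rw [hB]; nlinarith
  obtain ⟨n0, hn0, hmax⟩ := Finset.exists_max_image (Icc 1 B) (fun m => μ (m : ℕ)) ⟨s, hsB⟩
  set M := μ (n0 : ℕ) with hM
  have hMs : μ (s : ℕ) ≤ M := hmax s hsB
  have hMlow : 2 ^ k * (2 * s + 1) ^ 2 ≤ M := hpop.trans hMs
  have hM0 : 0 < M := lt_of_lt_of_le (by positivity) hMlow
  obtain ⟨K, hKB, hKne, hKbig, hKgap⟩ := threshold B M μ hM0 hμ ⟨n0, hn0, rfl⟩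
  set ℓ := Nat.log 2 B + 1 with hℓ
  -- scaled copies
  let Y : ℕ → Finset E := fun N => if h : 0 < N then
      G.map (scale (1 / √(N : ℝ)) (by have : (0 : ℝ) < N := by exact_mod_cast h
                                      positivity)) else ∅
  have hKpos : ∀ N ∈ K, 0 < N := fun N hN => by
    have := (mem_Icc.1 (hKB hN)).1; omega
  have hYcard : ∀ N ∈ K, (Y N).card = G.card := by
    intro N hN
    simp only [Y, hKpos N hN, dif_pos, card_map]
  have hYPP : ∀ N ∈ K, ∀ r, 0 < r → PP (Y N) (Y N) r = μ (r ^ 2 * N) := by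
    intro N hN r hr
    have hN0 : (0 : ℝ) < N := by exact_mod_cast hKpos N hN
    simp only [Y, hKpos N hN, dif_pos, hμdef]
    rw [PP_scale G (1 / √(N : ℝ)) (by positivity)]
    congr 1
    rw [Real.sqrt_mul (by positivity), Real.sqrt_sq hr.le]
    field_simp
  set c := G.card with hc
  have hc1 : c = (4 * s + 1) ^ 2 := card_grid s
  have hcpos : 0 < c := by rw [hc1]; positivity
  have hKcard : 0 < K.card := card_pos.2 hKne
  set D := c * K.card with hD
  have hDpos : 0 < D := Nat.mul_pos hcpos hKcard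
  have hKleB : K.card ≤ B := by
    have := card_le_card hKB
    simpa using this
  have hDn : D ≤ n := by
    calc D ≤ (4 * s + 1) ^ 2 * (32 * s ^ 2) := by rw [hD, hc1]; exact Nat.mul_le_mul_left _ hKleB
      _ ≤ (5 * s) ^ 2 * (32 * s ^ 2) := by
          apply Nat.mul_le_mul_right
          apply Nat.pow_le_pow_left
          omega
      _ = 800 * s ^ 4 := by ring
      _ ≤ 800 * A ^ 4 := by gcongr
      _ ≤ n := hn
  set q := n / D with hq
  set rr := n % D with hrr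
  have hqr : D * q + rr = n := Nat.div_add_mod n D
  have hq1 : 1 ≤ q := (Nat.one_le_div_iff hDpos).2 hDn
  have hrrD : rr < D := Nat.mod_lt _ hDpos
  let L : List (Finset E) := (List.replicate q (K.toList.map Y)).flatten ++
    List.replicate rr ({0} : Finset E)
  let Δ : Finset ℝ := insert 1 (K.biUnion (fun N => ((Y N) ×ˢ (Y N)).image (fun z => dist z.1 z.2)))
  have hmemL : ∀ Z ∈ L, (∃ N ∈ K, Z = Y N) ∨ Z = {0} := by
    intro Z hZ
    simp only [L, List.mem_append, List.mem_flatten] at hZ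
    rcases hZ with ⟨l', hl', hZ⟩ | hZ
    · left
      rw [List.mem_replicate] at hl'
      rw [hl'.2, List.mem_map] at hZ
      obtain ⟨N, hN, rfl⟩ := hZ
      exact ⟨N, Finset.mem_toList.1 hN, rfl⟩
    · right
      rw [List.mem_replicate] at hZ
      exact hZ.2
  obtain ⟨X, hX1, hX2, hX3⟩ := generic_union c Δ L (by
      intro Z hZ
      rcases hmemL Z hZ with ⟨N, hN, rfl⟩ | rfl
      · exact (hYcard N hN).le
      · simp; omega) (by
      intro Z hZ x hx y hy hxy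
      rcases hmemL Z hZ with ⟨N, hN, rfl⟩ | rfl
      · simp only [Δ]
        apply mem_insert_of_mem
        rw [mem_biUnion]
        exact ⟨N, hN, mem_image.2 ⟨(x, y), mem_product.2 ⟨hx, hy⟩, rfl⟩⟩
      · rw [mem_singleton] at hx hy
        exact absurd (hx.trans hy.symm) hxy)
  have hsumF : ∀ f : Finset E → ℕ, (L.map f).sum = q * ∑ N ∈ K, f (Y N) + rr * f {0} := by
    intro f
    simp only [L]
    rw [List.map_append, List.sum_append, list_sum_rep, List.map_replicate, List.sum_replicate]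
    congr 1
    rw [List.map_map]
    congr 1
    rw [Finset.sum_map_toList]
    rfl
  have hXcard : X.card = n := by
    rw [hX1, hsumF, Finset.sum_congr rfl hYcard, sum_const, smul_eq_mul, ← hqr, hD]
    simp
    ring
  refine ⟨X, hXcard, ?_⟩
  intro r hr hr1
  have hP1 : PP X X 1 = q * ∑ N ∈ K, μ (N : ℕ) := by
    rw [hX2 1 one_pos (mem_insert_self _ _), hsumF, PP_singleton 0 1 one_pos, mul_zero, add_zero]
    congr 1
    apply sum_congr rfl
    intro N hN
    rw [hYPP N hN 1 one_pos]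
    simp
  have hqr' : (0 : ℝ) < q := by exact_mod_cast hq1
  have hcr : (0 : ℝ) < c := by exact_mod_cast hcpos
  have hKr : (0 : ℝ) < K.card := by exact_mod_cast hKcard
  have hMr : (0 : ℝ) < M := by exact_mod_cast hM0
  have hℓr : (1 : ℝ) ≤ ((ℓ : ℕ) : ℝ) := by
    have : 1 ≤ ℓ := by omega
    exact_mod_cast this
  -- the gap for the finite set
  set g : ℝ := M * K.card / (8 * (ℓ : ℝ) ^ 3) with hg
  have hMc : (2 : ℝ) ^ k * c ≤ 4 * M := by
    have h1 : 2 ^ k * c ≤ 4 * M := by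
      calc 2 ^ k * c = 2 ^ k * (4 * s + 1) ^ 2 := by rw [hc1]
        _ ≤ 2 ^ k * (4 * (2 * s + 1) ^ 2) := by
            apply Nat.mul_le_mul_left
            nlinarith
        _ = 4 * (2 ^ k * (2 * s + 1) ^ 2) := by ring
        _ ≤ 4 * M := Nat.mul_le_mul_left _ hMlow
    exact_mod_cast h1
  have hgap : (PP X X r : ℝ) + q * g ≤ PP X X 1 := by
    rw [hP1]
    push_cast
    by_cases hrΔ : r ∈ Δ
    · have hPr : PP X X r = q * ∑ N ∈ K, μ (r ^ 2 * N) := by
        rw [hX2 r hr hrΔ, hsumF, PP_singleton 0 r hr, mul_zero, add_zero]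
        congr 1
        apply sum_congr rfl
        intro N hN
        rw [hYPP N hN r hr]
      rw [hPr]
      push_cast
      have hρ : r ^ 2 ≠ 1 := by
        intro h
        have h9 : (r - 1) * (r + 1) = 0 := by linarith
        rcases mul_eq_zero.1 h9 with h9 | h9
        · exact hr1 (by linarith)
        · linarith
      have := hKgap (r ^ 2) (by positivity) hρ
      rw [← mul_add]
      exact mul_le_mul_of_nonneg_left this hqr'.le
    · have h1 := hX3 r hr hrΔ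
      have h1' : (PP X X r : ℝ) ≤ 2 * c := by exact_mod_cast h1
      have h2 : (M : ℝ) / 2 * K.card ≤ ∑ N ∈ K, (μ (N : ℕ) : ℝ) := by
        have := Finset.card_nsmul_le_sum K (fun N => (μ (N : ℕ) : ℝ)) ((M : ℝ) / 2) hKbig
        rw [nsmul_eq_mul] at this
        linarith
      have h4 : (32 : ℝ) ≤ 2 ^ k := by
        calc (32 : ℝ) = 2 ^ 5 := by norm_num
          _ ≤ 2 ^ k := pow_le_pow_right₀ (by norm_num) (by omega)
      have hK1 : (1 : ℝ) ≤ K.card := by exact_mod_cast hKcard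
      have hq1' : (1 : ℝ) ≤ q := by exact_mod_cast hq1
      exact num_far hq1' hK1 hMr hcr hℓr h4 hMc h1' h2
  refine le_trans ?_ hgap
  have hlog : ℓ ≤ Nat.log 2 n + 1 := by
    rw [hℓ]
    have : B ≤ n := by
      calc B = 32 * s ^ 2 := hB
        _ ≤ 32 * A ^ 2 := by gcongr
        _ ≤ 800 * A ^ 4 := by
            have hA1 : 1 ≤ A := hs1.trans hsA
            nlinarith [Nat.pow_le_pow_right hA1 (show 2 ≤ 4 by norm_num)]
        _ ≤ n := hn
    have := Nat.log_mono_right (b := 2) this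
    omega
  have hlogr : (ℓ : ℝ) ≤ ((Nat.log 2 n + 1 : ℕ) : ℝ) := by exact_mod_cast hlog
  have hnD : (n : ℝ) ≤ 2 * (c * K.card * q) := by
    have h1 : n ≤ 2 * (D * q) := by
      have : D ≤ D * q := Nat.le_mul_of_pos_right _ (by omega)
      omega
    have h2 : (n : ℝ) ≤ 2 * ((D : ℝ) * q) := by exact_mod_cast h1
    rw [hD] at h2
    push_cast at h2
    exact h2
  have hfin := num_fin hqr' hKr hcr hℓr hlogr (show (0 : ℝ) < 2 ^ k by positivity) hnD hMc
  exact add_le_add le_rfl hfin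

end Pool.Agent.Work.MP_cf6fa9_co
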