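import Mathlib

set_option autoImplicit false

namespace Pool.Agent.Work.MP_cf6fa9_co

open Finset Nat

lemma count_le (d b v : ℕ) (hd : 0 < d) :
    (((range b).filter (fun m => m ≡ v [MOD d])).card : ℕ) ≤ b / d + 1 := by
  have h := Nat.count_modEq_card (b := b) (r := d) hd v
  rw [Nat.count_eq_card_filter_range] at h
  rw [h]
  split_ifs <;> omega

/-- Number of solutions of `4 m² + 1 ≡ 0 mod p^i`. -/
lemma card_sol (p i b : ℕ) (hp : p.Prime) (hp2 : p ≠ 2) (hi : i ≠ 0) :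
    ((range b).filter (fun m => p ^ i ∣ 4 * m ^ 2 + 1)).card ≤ 2 * (b / p ^ i + 1) := by
  rcases Finset.eq_empty_or_nonempty ((range b).filter (fun m => p ^ i ∣ 4 * m ^ 2 + 1)) with h | ⟨m0, hm0⟩
  · rw [h]; simp
  · rw [mem_filter] at hm0
    have hd : 0 < p ^ i := pow_pos hp.pos i
    set d := p ^ i with hd'
    have hsub : (range b).filter (fun m => d ∣ 4 * m ^ 2 + 1) ⊆
        ((range b).filter (fun m => m ≡ m0 [MOD d])) ∪
          ((range b).filter (fun m => m ≡ (d - m0 % d) [MOD d])) := by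
      intro m hm
      rw [mem_filter] at hm
      rw [mem_union, mem_filter, mem_filter]
      have h1 : (d : ℤ) ∣ 4 * (((m : ℤ) - m0) * (m + m0)) := by
        have e1 : (d : ℤ) ∣ (4 * (m : ℤ) ^ 2 + 1) := by exact_mod_cast hm.2
        have e2 : (d : ℤ) ∣ (4 * (m0 : ℤ) ^ 2 + 1) := by exact_mod_cast hm0.2
        have h := dvd_sub e1 e2
        have e : 4 * (((m : ℤ) - m0) * (m + m0)) = (4 * (m : ℤ) ^ 2 + 1) - (4 * (m0 : ℤ) ^ 2 + 1) := by ring
        rw [e]; exact h
      have hodd : Odd p := hp.odd_of_ne_two hp2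
      have hcop4 : IsCoprime (d : ℤ) 4 := by
        rw [hd']
        push_cast
        apply IsCoprime.pow_left
        rw [Int.isCoprime_iff_gcd_eq_one]
        have : Nat.Coprime p 4 := by
          have h2 : Nat.Coprime p 2 := hodd.coprime_two_right
          have : (4 : ℕ) = 2 ^ 2 := by norm_num
          rw [this]
          exact Nat.Coprime.pow_right 2 h2
        exact_mod_cast this
      have h2 : (d : ℤ) ∣ ((m : ℤ) - m0) * (m + m0) := hcop4.dvd_of_dvd_mul_left h1
      have hpdvd : (p : ℤ) ∣ 4 * (m0 : ℤ) ^ 2 + 1 := by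
        have : (p : ℤ) ∣ (d : ℤ) := by
          rw [hd']; push_cast; exact dvd_pow_self _ hi
        exact this.trans (by exact_mod_cast hm0.2)
      have hpp : Prime (p : ℤ) := Nat.prime_iff_prime_int.1 hp
      by_cases hc : (p : ℤ) ∣ ((m : ℤ) - m0)
      · have hnc : ¬ (p : ℤ) ∣ ((m : ℤ) + m0) := by
          intro h3
          have h4 : (p : ℤ) ∣ 2 * (m0 : ℤ) := by
            have h := dvd_sub h3 hc
            have e : 2 * (m0 : ℤ) = ((m : ℤ) + m0) - ((m : ℤ) - m0) := by ring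
            rw [e]; exact h
          have h5 : (p : ℤ) ∣ (m0 : ℤ) := by
            rcases hpp.dvd_or_dvd h4 with h | h
            · exfalso
              have : p ∣ 2 := by exact_mod_cast h
              exact hp2 ((Nat.prime_dvd_prime_iff_eq hp Nat.prime_two).1 this)
            · exact h
          have h6 : (p : ℤ) ∣ 1 := by
            have : (p : ℤ) ∣ 4 * (m0 : ℤ) ^ 2 := dvd_mul_of_dvd_right (dvd_pow h5 two_ne_zero) _
            have h7 := dvd_sub hpdvd this
            have e : (1 : ℤ) = (4 * (m0 : ℤ) ^ 2 + 1) - 4 * (m0 : ℤ) ^ 2 := by ring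
            rw [e]; exact h7
          exact hpp.not_isUnit (isUnit_of_dvd_one h6)
        have hcop : IsCoprime (d : ℤ) ((m : ℤ) + m0) := by
          rw [hd']; push_cast
          exact IsCoprime.pow_left ((Prime.coprime_iff_not_dvd hpp).2 hnc)
        have h3 : (d : ℤ) ∣ ((m : ℤ) - m0) := hcop.dvd_of_dvd_mul_right h2
        left
        refine ⟨hm.1, ?_⟩
        rw [Nat.modEq_iff_dvd]
        have h := (dvd_neg (a := (d : ℤ))).2 h3
        have e : (m0 : ℤ) - m = -((m : ℤ) - m0) := by ring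
        rw [e]; exact h
      · have hcop : IsCoprime (d : ℤ) ((m : ℤ) - m0) := by
          rw [hd']; push_cast
          exact IsCoprime.pow_left ((Prime.coprime_iff_not_dvd hpp).2 hc)
        have h3 : (d : ℤ) ∣ ((m : ℤ) + m0) := hcop.dvd_of_dvd_mul_left h2
        right
        refine ⟨hm.1, ?_⟩
        rw [Nat.modEq_iff_dvd]
        have hlt : m0 % d < d := Nat.mod_lt _ hd
        rw [Nat.cast_sub hlt.le]
        have h4 : ((m0 % d : ℕ) : ℤ) = m0 - d * (m0 / d : ℕ) := by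
          have := Nat.div_add_mod m0 d
          have : (d : ℤ) * (m0 / d : ℕ) + (m0 % d : ℕ) = m0 := by exact_mod_cast this
          linarith
        rw [h4]
        have h5 : (d : ℤ) ∣ d * (1 + (m0 / d : ℕ)) - (m + m0) := dvd_sub (dvd_mul_right _ _) h3
        have e : (d : ℤ) - (m0 - d * (m0 / d : ℕ)) - m = d * (1 + (m0 / d : ℕ)) - (m + m0) := by ring
        rw [e]; exact h5
    calc ((range b).filter (fun m => d ∣ 4 * m ^ 2 + 1)).card ≤ _ := card_le_card hsub
      _ ≤ _ := card_union_le _ _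
      _ ≤ (b / d + 1) + (b / d + 1) := Nat.add_le_add (count_le _ _ _ hd) (count_le _ _ _ hd)
      _ = _ := by ring

/-- Valuation of the product of the `4 m² + 1`. -/
lemma sum_val (p y b : ℕ) (hp : p.Prime) (hp2 : p ≠ 2) (hb : 4 * y ^ 2 + 1 < p ^ (b + 1)) :
    ∑ m ∈ range (y + 1), (4 * m ^ 2 + 1).factorization p ≤ 2 * ((y + 1) / (p - 1)) + 2 * b := by
  have h1 : ∀ m ∈ range (y + 1), (4 * m ^ 2 + 1).factorization p =
      ∑ i ∈ Ico 1 (b + 1), if p ^ i ∣ 4 * m ^ 2 + 1 then 1 else 0 := by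
    intro m hm
    rw [mem_range] at hm
    have hm' : 4 * m ^ 2 + 1 < p ^ (b + 1) := by
      refine lt_of_le_of_lt ?_ hb
      have : m ≤ y := by omega
      gcongr
    rw [Nat.factorization_eq_card_pow_dvd_of_lt hp (by positivity) hm', Finset.card_filter]
  rw [Finset.sum_congr rfl h1, Finset.sum_comm]
  have h2 : ∀ i ∈ Ico 1 (b + 1), (∑ m ∈ range (y + 1), if p ^ i ∣ 4 * m ^ 2 + 1 then 1 else 0) ≤
      2 * ((y + 1) / p ^ i + 1) := by
    intro i hi
    rw [mem_Ico] at hi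
    rw [← Finset.card_filter]
    exact card_sol p i (y + 1) hp hp2 (by omega)
  calc _ ≤ ∑ i ∈ Ico 1 (b + 1), 2 * ((y + 1) / p ^ i + 1) := Finset.sum_le_sum h2
    _ = 2 * (∑ i ∈ Ico 1 (b + 1), (y + 1) / p ^ i) + 2 * b := by
        rw [← Finset.mul_sum, Finset.sum_add_distrib]
        simp
        ring
    _ ≤ _ := by
        have := Nat.geom_sum_Ico_le hp.two_le (y + 1) (b + 1)
        omega

/-- The primes `1 mod 4` up to `n`. -/
def PS (n : ℕ) : Finset ℕ := (range (n + 1)).filter (fun p => p.Prime ∧ p % 4 = 1)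

lemma mod_four_of_dvd {p m : ℕ} (hp : p.Prime) (h : p ∣ 4 * m ^ 2 + 1) : p % 4 = 1 := by
  have hp2 : p ≠ 2 := by
    rintro rfl
    omega
  have h1 : ¬ p % 4 = 3 := by
    have : Fact p.Prime := ⟨hp⟩
    intro h3
    have h4 : IsSquare (-1 : ZMod p) := by
      refine ⟨(2 * m : ℕ), ?_⟩
      have : ((4 * m ^ 2 + 1 : ℕ) : ZMod p) = 0 := (ZMod.natCast_eq_zero_iff _ _).2 h
      push_cast at this ⊢
      linear_combination -this
    exact (ZMod.exists_sq_eq_neg_one_iff.1 h4) h3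
  have hodd := hp.odd_of_ne_two hp2
  rcases hodd with ⟨k, hk⟩
  omega

/-- log of the product. -/
lemma log_prod_le (y : ℕ) :
    ∑ m ∈ range (y + 1), Real.log (4 * (m : ℝ) ^ 2 + 1) ≤
      ∑ p ∈ PS (4 * y ^ 2 + 1),
        (2 * ((y : ℝ) + 1) / ((p : ℝ) - 1) * Real.log p + 4 * Real.log (4 * (y : ℝ) ^ 2 + 1)) := by
  have h1 : ∀ m ∈ range (y + 1), Real.log (4 * (m : ℝ) ^ 2 + 1) =
      ∑ p ∈ PS (4 * y ^ 2 + 1), ((4 * m ^ 2 + 1).factorization p : ℝ) * Real.log p := by
    intro m hm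
    rw [mem_range] at hm
    have h := Real.log_nat_eq_sum_factorization (4 * m ^ 2 + 1)
    push_cast at h
    rw [h, Finsupp.sum]
    apply Finset.sum_subset
    · intro p hp
      rw [Nat.support_factorization, Nat.mem_primeFactors] at hp
      simp only [PS, mem_filter, mem_range]
      refine ⟨?_, hp.1, mod_four_of_dvd hp.1 hp.2.1⟩
      have h1 := Nat.le_of_dvd (by positivity) hp.2.1
      have h2 : 4 * m ^ 2 + 1 ≤ 4 * y ^ 2 + 1 := by
        have : m ≤ y := by omega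
        gcongr
      omega
    · intro p _ hp
      rw [Finsupp.notMem_support_iff] at hp
      rw [hp]; simp
  rw [Finset.sum_congr rfl h1, Finset.sum_comm]
  apply Finset.sum_le_sum
  intro p hp
  simp only [PS, mem_filter, mem_range] at hp
  obtain ⟨hple, hpp, hp4⟩ := hp
  have hp2 : p ≠ 2 := by rintro rfl; omega
  have hp5 : 2 ≤ p := hpp.two_le
  rw [← Finset.sum_mul]
  set b := Nat.log p (4 * y ^ 2 + 1) with hb
  have hlt : 4 * y ^ 2 + 1 < p ^ (b + 1) := Nat.lt_pow_succ_log_self hpp.one_lt _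
  have hv := sum_val p y b hpp hp2 hlt
  have hv' : (∑ m ∈ range (y + 1), ((4 * m ^ 2 + 1).factorization p : ℝ)) ≤
      2 * ((y : ℝ) + 1) / ((p : ℝ) - 1) + 2 * b := by
    have h2 : ((∑ m ∈ range (y + 1), (4 * m ^ 2 + 1).factorization p : ℕ) : ℝ) ≤
        ((2 * ((y + 1) / (p - 1)) + 2 * b : ℕ) : ℝ) := by exact_mod_cast hv
    push_cast at h2
    refine h2.trans ?_
    have h3 : (((y + 1) / (p - 1) : ℕ) : ℝ) ≤ ((y : ℝ) + 1) / ((p : ℝ) - 1) := by
      have := Nat.cast_div_le (α := ℝ) (m := y + 1) (n := p - 1)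
      rw [Nat.cast_sub (by omega)] at this
      push_cast at this
      exact this
    have h4 : 2 * ((y : ℝ) + 1) / ((p : ℝ) - 1) = 2 * (((y : ℝ) + 1) / ((p : ℝ) - 1)) := by ring
    rw [h4]
    linarith
  have hlogp : 0 ≤ Real.log p := Real.log_natCast_nonneg p
  have hbl : (b : ℝ) * Real.log p ≤ Real.log (4 * (y : ℝ) ^ 2 + 1) := by
    have h5 : p ^ b ≤ 4 * y ^ 2 + 1 := Nat.pow_log_le_self p (by positivity)
    have h6 : ((p : ℝ)) ^ b ≤ 4 * (y : ℝ) ^ 2 + 1 := by exact_mod_cast h5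
    have h7 := Real.log_le_log (by have : 0 < p := hpp.pos; positivity) h6
    rwa [Real.log_pow] at h7
  have hΛ : 0 ≤ Real.log (4 * (y : ℝ) ^ 2 + 1) := Real.log_nonneg (by nlinarith [sq_nonneg (y : ℝ)])
  calc _ ≤ (2 * ((y : ℝ) + 1) / ((p : ℝ) - 1) + 2 * b) * Real.log p := by gcongr
    _ = 2 * ((y : ℝ) + 1) / ((p : ℝ) - 1) * Real.log p + 2 * (b * Real.log p) := by ring
    _ ≤ _ := by linarith

end Pool.Agent.Work.MP_cf6fa9_co
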