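import Pool.Agent.Work.MP_cf6fa9_co.Primes

set_option autoImplicit false

namespace Pool.Agent.Work.MP_cf6fa9_co

open Finset Nat

/-- Mertens-type bound. -/
lemma sum_log_div (z : ℕ) (hz : 1 ≤ z) :
    ∑ p ∈ (range (z + 1)).filter Nat.Prime, Real.log p / p ≤ Real.log z + Real.log 4 := by
  have hz0 : (0 : ℝ) < z := by exact_mod_cast hz
  have h1 : ∑ p ∈ (range (z + 1)).filter Nat.Prime, ((z / p : ℕ) : ℝ) * Real.log p ≤ z * Real.log z := by
    have h2 : Real.log (z ! : ℕ) ≤ z * Real.log z := by
      rw [← Real.log_pow]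
      apply Real.log_le_log
      · exact_mod_cast Nat.factorial_pos z
      · exact_mod_cast Nat.factorial_le_pow z
    refine le_trans ?_ h2
    rw [Real.log_nat_eq_sum_factorization, Finsupp.sum]
    have hsub : (z !).factorization.support ⊆ (range (z + 1)).filter Nat.Prime := by
      intro p hp
      rw [Nat.support_factorization, Nat.mem_primeFactors] at hp
      rw [mem_filter, mem_range]
      have := (hp.1.dvd_factorial).1 hp.2.1
      exact ⟨by omega, hp.1⟩
    rw [Finset.sum_subset hsub (by
      intro p _ hp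
      rw [Finsupp.notMem_support_iff] at hp
      rw [hp]; simp)]
    apply Finset.sum_le_sum
    intro p hp
    rw [mem_filter, mem_range] at hp
    have hp1 := hp.2.one_lt
    have h3 : z / p ≤ (z !).factorization p := by
      rw [Nat.factorization_factorial hp.2 (Nat.lt_succ_self (Nat.log p z))]
      have hmem : 1 ∈ Ico 1 (Nat.log p z).succ := by
        rw [mem_Ico]
        have : 0 < Nat.log p z := Nat.log_pos hp1 (by omega)
        omega
      have := Finset.single_le_sum (f := fun i => z / p ^ i) (fun i _ => Nat.zero_le _) hmem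
      simpa using this
    have h4 : 0 ≤ Real.log p := Real.log_natCast_nonneg p
    have h5 : ((z / p : ℕ) : ℝ) ≤ ((z !).factorization p : ℝ) := by exact_mod_cast h3
    exact mul_le_mul_of_nonneg_right h5 h4
  have h2 : ∑ p ∈ (range (z + 1)).filter Nat.Prime, Real.log p ≤ z * Real.log 4 := by
    rw [← Real.log_pow, ← Real.log_prod]
    · apply Real.log_le_log
      · apply Finset.prod_pos
        intro p hp
        rw [mem_filter] at hp
        exact_mod_cast hp.2.pos
      · have h7 := primorial_le_four_pow z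
        unfold primorial at h7
        have h8 : ((∏ p ∈ (range (z + 1)).filter Nat.Prime, p : ℕ) : ℝ) ≤ ((4 ^ z : ℕ) : ℝ) := by
          exact_mod_cast h7
        push_cast at h8
        exact h8
    · intro p hp
      rw [mem_filter] at hp
      exact_mod_cast hp.2.pos.ne'
  have h3 : ∑ p ∈ (range (z + 1)).filter Nat.Prime, (z : ℝ) * (Real.log p / p) ≤
      ∑ p ∈ (range (z + 1)).filter Nat.Prime, (((z / p : ℕ) : ℝ) * Real.log p + Real.log p) := by
    apply Finset.sum_le_sum
    intro p hp
    rw [mem_filter] at hp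
    have hp0 : (0 : ℝ) < p := by exact_mod_cast hp.2.pos
    have h4 : 0 ≤ Real.log p := Real.log_natCast_nonneg p
    have h5 : (z : ℝ) / p ≤ ((z / p : ℕ) : ℝ) + 1 := by
      rw [div_le_iff₀ hp0]
      have h6 : z < (z / p + 1) * p := by
        have := Nat.lt_div_mul_add (a := z) hp.2.pos
        linarith
      have h7 : (z : ℝ) < (((z / p : ℕ) : ℝ) + 1) * p := by exact_mod_cast h6
      exact h7.le
    calc (z : ℝ) * (Real.log p / p) = (z / p) * Real.log p := by ring
      _ ≤ (((z / p : ℕ) : ℝ) + 1) * Real.log p := by gcongr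
      _ = _ := by ring
  rw [← Finset.mul_sum, Finset.sum_add_distrib] at h3
  have h4 : (z : ℝ) * ∑ p ∈ (range (z + 1)).filter Nat.Prime, Real.log p / p ≤
      z * (Real.log z + Real.log 4) := by
    rw [mul_add]
    linarith
  exact le_of_mul_le_mul_left h4 hz0

lemma log_four_lt : Real.log 4 < 1.4 := by
  have h : Real.log 4 = 2 * Real.log 2 := by
    have : (4 : ℝ) = 2 ^ 2 := by norm_num
    rw [this, Real.log_pow]; norm_num
  rw [h]
  have := Real.log_two_lt_d9
  linarith

/-- Lower bound for the product. -/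
lemma prod_lower (y : ℕ) : 2 * ((y : ℝ) * Real.log y - y) ≤
    ∑ m ∈ range (y + 1), Real.log (4 * (m : ℝ) ^ 2 + 1) := by
  induction y with
  | zero => simp
  | succ y ih =>
    rw [Finset.sum_range_succ]
    have hy1 : (0 : ℝ) < (y : ℝ) + 1 := by positivity
    have h1 : 2 * Real.log ((y : ℝ) + 1) ≤ Real.log (4 * ((y + 1 : ℕ) : ℝ) ^ 2 + 1) := by
      have : 2 * Real.log ((y : ℝ) + 1) = Real.log (((y : ℝ) + 1) ^ 2) := by
        rw [Real.log_pow]; norm_num
      rw [this]
      apply Real.log_le_log (by positivity)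
      push_cast
      nlinarith [sq_nonneg ((y : ℝ) + 1)]
    have h2 : (y : ℝ) * Real.log ((y : ℝ) + 1) ≤ y * Real.log y + 1 := by
      rcases Nat.eq_zero_or_pos y with h | h
      · subst h; simp
      · have hy0 : (0 : ℝ) < y := by exact_mod_cast h
        have h3 : Real.log ((y : ℝ) + 1) = Real.log y + Real.log (1 + 1 / y) := by
          rw [← Real.log_mul hy0.ne' (by positivity)]
          congr 1
          field_simp
        have h4 : Real.log (1 + 1 / (y : ℝ)) ≤ 1 / y := by
          have := Real.log_le_sub_one_of_pos (show (0 : ℝ) < 1 + 1 / y by positivity)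
          linarith
        rw [h3]
        have h5 : (y : ℝ) * Real.log (1 + 1 / y) ≤ y * (1 / y) := by gcongr
        have h6 : (y : ℝ) * (1 / y) = 1 := by field_simp
        nlinarith
    push_cast
    push_cast at h1
    nlinarith

/-- Many primes `1 mod 4`. -/
lemma card_PS (z : ℕ) (hz : 100 ≤ z) : (z : ℝ) / 8 ≤ (PS (4 * (z ^ 4) ^ 2 + 1)).card := by
  by_contra hcon
  push Not at hcon
  set y := z ^ 4 with hy
  set S := PS (4 * y ^ 2 + 1) with hS
  set L := Real.log z with hL
  set Λ := Real.log (4 * (y : ℝ) ^ 2 + 1) with hΛ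
  have hzr : (100 : ℝ) ≤ z := by exact_mod_cast hz
  have hyr : (y : ℝ) = (z : ℝ) ^ 4 := by rw [hy]; push_cast; ring
  have hy0 : (0 : ℝ) < y := by rw [hyr]; positivity
  have hΛ0 : 0 ≤ Λ := Real.log_nonneg (by nlinarith [sq_nonneg (y : ℝ)])
  have hL4 : 4 ≤ L := by
    rw [hL, Real.le_log_iff_exp_le (by linarith)]
    have h1 : Real.exp 4 = Real.exp 1 ^ 4 := by rw [← Real.exp_nat_mul]; norm_num
    have h2 : Real.exp 1 < 2.7182818286 := Real.exp_one_lt_d9
    have h3 : Real.exp 1 ^ 4 ≤ 2.7182818286 ^ 4 := by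
      apply pow_le_pow_left₀ (Real.exp_pos 1).le h2.le
    rw [h1]
    refine h3.trans ?_
    norm_num
    linarith
  have hLz : L ≤ z := by
    have := Real.log_le_sub_one_of_pos (show (0 : ℝ) < z by linarith)
    linarith
  have hΛL : Λ ≤ 8 * L + 2 := by
    have h1 : (4 * (y : ℝ) ^ 2 + 1) ≤ 5 * (z : ℝ) ^ 8 := by
      rw [hyr]
      have : (1 : ℝ) ≤ (z : ℝ) ^ 8 := one_le_pow₀ (by linarith)
      nlinarith
    have h2 : Λ ≤ Real.log (5 * (z : ℝ) ^ 8) := Real.log_le_log (by positivity) h1
    rw [Real.log_mul (by norm_num) (by positivity), Real.log_pow] at h2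
    have h3 : Real.log 5 ≤ 2 := by
      rw [Real.log_le_iff_le_exp (by norm_num)]
      have h4 : Real.exp 2 = Real.exp 1 ^ 2 := by rw [← Real.exp_nat_mul]; norm_num
      have h5 : 2.7182818283 < Real.exp 1 := Real.exp_one_gt_d9
      rw [h4]
      nlinarith
    push_cast at h2
    linarith
  have h0 := (prod_lower y).trans (log_prod_le y)
  have hlogy : Real.log (y : ℝ) = 4 * L := by
    rw [hyr, Real.log_pow, hL]; norm_num
  rw [hlogy] at h0
  -- split the sum
  have hsplit := Finset.sum_filter_add_sum_filter_not S (fun p => p ≤ z)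
    (fun p => (2 * ((y : ℝ) + 1) / ((p : ℝ) - 1) * Real.log p + 4 * Λ))
  rw [← hsplit] at h0
  have hsmall : ∑ p ∈ S.filter (fun p => p ≤ z),
      (2 * ((y : ℝ) + 1) / ((p : ℝ) - 1) * Real.log p + 4 * Λ) ≤
      2.5 * ((y : ℝ) + 1) * (L + 1.4) + 4 * Λ * (z + 1) := by
    rw [Finset.sum_add_distrib]
    apply _root_.add_le_add
    · calc ∑ p ∈ S.filter (fun p => p ≤ z), 2 * ((y : ℝ) + 1) / ((p : ℝ) - 1) * Real.log p
          ≤ ∑ p ∈ S.filter (fun p => p ≤ z), 2.5 * ((y : ℝ) + 1) * (Real.log p / p) := by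
            apply Finset.sum_le_sum
            intro p hp
            simp only [hS, PS, mem_filter, mem_range] at hp
            have hp5 : 5 ≤ p := by
              have := hp.1.2.1.two_le
              have := hp.1.2.2
              omega
            have hp5' : (5 : ℝ) ≤ p := by exact_mod_cast hp5
            have hlog : 0 ≤ Real.log p := Real.log_natCast_nonneg p
            have h1 : 2 / ((p : ℝ) - 1) ≤ 2.5 / p := by
              rw [div_le_div_iff₀ (by linarith) (by linarith)]
              linarith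
            calc 2 * ((y : ℝ) + 1) / ((p : ℝ) - 1) * Real.log p
                = (2 / ((p : ℝ) - 1)) * (((y : ℝ) + 1) * Real.log p) := by ring
              _ ≤ (2.5 / p) * (((y : ℝ) + 1) * Real.log p) := by
                  apply mul_le_mul_of_nonneg_right h1
                  positivity
              _ = _ := by ring
        _ = 2.5 * ((y : ℝ) + 1) * ∑ p ∈ S.filter (fun p => p ≤ z), (Real.log p / p) := by
            rw [Finset.mul_sum]
        _ ≤ 2.5 * ((y : ℝ) + 1) * (L + 1.4) := by
            apply mul_le_mul_of_nonneg_left _ (by positivity)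
            have h1 : ∑ p ∈ S.filter (fun p => p ≤ z), (Real.log p / p) ≤
                ∑ p ∈ (range (z + 1)).filter Nat.Prime, Real.log p / p := by
              apply Finset.sum_le_sum_of_subset_of_nonneg
              · intro p hp
                simp only [hS, PS, mem_filter, mem_range] at hp ⊢
                exact ⟨by omega, hp.1.2.1⟩
              · intro p _ _
                have : 0 ≤ Real.log p := Real.log_natCast_nonneg p
                positivity
            have h2 := sum_log_div z (by omega)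
            have h3 := log_four_lt
            linarith
    · rw [Finset.sum_const, nsmul_eq_mul]
      have h1 : ((S.filter (fun p => p ≤ z)).card : ℝ) ≤ z + 1 := by
        have h2 : (S.filter (fun p => p ≤ z)) ⊆ range (z + 1) := by
          intro p hp
          rw [mem_filter] at hp
          rw [mem_range]; omega
        have h3 := card_le_card h2
        rw [card_range] at h3
        exact_mod_cast h3
      nlinarith
  have hlarge : ∑ p ∈ S.filter (fun p => ¬ p ≤ z),
      (2 * ((y : ℝ) + 1) / ((p : ℝ) - 1) * Real.log p + 4 * Λ) ≤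
      (z / 8) * (2 * ((y : ℝ) + 1) / z + 4) * Λ := by
    have hterm : ∀ p ∈ S.filter (fun p => ¬ p ≤ z),
        (2 * ((y : ℝ) + 1) / ((p : ℝ) - 1) * Real.log p + 4 * Λ) ≤ (2 * ((y : ℝ) + 1) / z + 4) * Λ := by
      intro p hp
      simp only [hS, PS, mem_filter, mem_range] at hp
      have hpz : z + 1 ≤ p := by omega
      have hpz' : (z : ℝ) + 1 ≤ p := by exact_mod_cast hpz
      have hp2 : p ≤ 4 * y ^ 2 + 1 := by omega
      have hp2' : (p : ℝ) ≤ 4 * (y : ℝ) ^ 2 + 1 := by exact_mod_cast hp2
      have hlog : Real.log p ≤ Λ := Real.log_le_log (by linarith) hp2'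
      have hlog0 : 0 ≤ Real.log p := Real.log_natCast_nonneg p
      have h1 : 2 * ((y : ℝ) + 1) / ((p : ℝ) - 1) ≤ 2 * ((y : ℝ) + 1) / z := by
        apply div_le_div_of_nonneg_left (by positivity) (by linarith) (by linarith)
      have h2 : 2 * ((y : ℝ) + 1) / ((p : ℝ) - 1) * Real.log p ≤ 2 * ((y : ℝ) + 1) / z * Λ := by
        apply mul_le_mul h1 hlog hlog0 (by positivity)
      linarith
    have h1 := Finset.sum_le_card_nsmul _ _ _ hterm
    rw [nsmul_eq_mul] at h1
    refine h1.trans ?_
    rw [mul_assoc]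
    apply mul_le_mul_of_nonneg_right
    · have h2 : (S.filter (fun p => ¬ p ≤ z)).card ≤ S.card := card_filter_le _ _
      have h3 : ((S.filter (fun p => ¬ p ≤ z)).card : ℝ) ≤ S.card := by exact_mod_cast h2
      linarith
    · positivity
  have h1 : 2 * ((y : ℝ) * (4 * L) - y) ≤ 2.5 * ((y : ℝ) + 1) * (L + 1.4) + 4 * Λ * (z + 1)
      + (z / 8) * (2 * ((y : ℝ) + 1) / z + 4) * Λ := by linarith
  have h2 : (z : ℝ) / 8 * (2 * ((y : ℝ) + 1) / z + 4) = ((y : ℝ) + 1 + 2 * z) / 4 := by
    field_simp
    ring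
  rw [h2] at h1
  have h3 : 4 * Λ * (z + 1) ≤ 4 * (8 * L + 2) * (z + 1) := by gcongr
  have h4 : ((y : ℝ) + 1 + 2 * z) / 4 * Λ ≤ ((y : ℝ) + 1 + 2 * z) / 4 * (8 * L + 2) := by gcongr
  have hyz : (1000000 : ℝ) * z ≤ y := by
    rw [hyr]
    have : (1000000 : ℝ) ≤ (z : ℝ) ^ 3 := by
      calc (1000000 : ℝ) = 100 ^ 3 := by norm_num
        _ ≤ (z : ℝ) ^ 3 := by gcongr
    calc (1000000 : ℝ) * z ≤ (z : ℝ) ^ 3 * z := by gcongr
      _ = (z : ℝ) ^ 4 := by ring
  nlinarith

end Pool.Agent.Work.MP_cf6fa9_co
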